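import Mathlib

/-!
# Products of bilinear forms and their alternations
-/

namespace Pool.Agent.H204R3.CM

open Equiv

noncomputable section

variable {R W : Type*} [CommRing R] [AddCommGroup W] [Module R W] {m : ℕ}

/-- The product of bilinear forms, as a multilinear form. -/
def prodMap (B : Fin m → MultilinearMap R (fun _ : Fin 2 => W) R) :
    MultilinearMap R (fun _ : Fin m × Fin 2 => W) R where
  toFun v := ∏ s, B s (fun ε => v (s, ε))
  map_update_add' := by
    intro _ v a x y
    obtain ⟨s, ε⟩ := a
    classical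
    have h1 : ∀ z : W, (fun ε' => Function.update v (s, ε) z (s, ε')) =
        Function.update (fun ε' => v (s, ε')) ε z := by
      intro z
      funext ε'
      by_cases h : ε' = ε
      · subst h; simp
      · rw [Function.update_of_ne h, Function.update_of_ne]
        intro h2
        exact h (Prod.mk.inj h2).2
    have h2 : ∀ (z : W) (s' : Fin m), s' ≠ s →
        (fun ε' => Function.update v (s, ε) z (s', ε')) = fun ε' => v (s', ε') := by
      intro z s' hs
      funext ε'
      rw [Function.update_of_ne]
      intro h3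
      exact hs (Prod.mk.inj h3).1
    have h3 : ∀ z : W, ∏ s', B s' (fun ε' => Function.update v (s, ε) z (s', ε')) =
        B s (Function.update (fun ε' => v (s, ε')) ε z) *
          ∏ s' ∈ Finset.univ.erase s, B s' (fun ε' => v (s', ε')) := by
      intro z
      rw [← Finset.mul_prod_erase _ _ (Finset.mem_univ s), h1]
      congr 1
      exact Finset.prod_congr rfl fun s' hs' => by rw [h2 z s' (Finset.ne_of_mem_erase hs')]
    convert! (show ∏ s', B s' (fun ε' => Function.update v (s, ε) (x + y) (s', ε')) =
      ∏ s', B s' (fun ε' => Function.update v (s, ε) x (s', ε')) +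
      ∏ s', B s' (fun ε' => Function.update v (s, ε) y (s', ε')) from ?_)
    rw [h3, h3, h3, MultilinearMap.map_update_add, add_mul]
  map_update_smul' := by
    intro _ v a c x
    obtain ⟨s, ε⟩ := a
    classical
    have h1 : ∀ z : W, (fun ε' => Function.update v (s, ε) z (s, ε')) =
        Function.update (fun ε' => v (s, ε')) ε z := by
      intro z
      funext ε'
      by_cases h : ε' = ε
      · subst h; simp
      · rw [Function.update_of_ne h, Function.update_of_ne]
        intro h2
        exact h (Prod.mk.inj h2).2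
    have h2 : ∀ (z : W) (s' : Fin m), s' ≠ s →
        (fun ε' => Function.update v (s, ε) z (s', ε')) = fun ε' => v (s', ε') := by
      intro z s' hs
      funext ε'
      rw [Function.update_of_ne]
      intro h3
      exact hs (Prod.mk.inj h3).1
    have h3 : ∀ z : W, ∏ s', B s' (fun ε' => Function.update v (s, ε) z (s', ε')) =
        B s (Function.update (fun ε' => v (s, ε')) ε z) *
          ∏ s' ∈ Finset.univ.erase s, B s' (fun ε' => v (s', ε')) := by
      intro z
      rw [← Finset.mul_prod_erase _ _ (Finset.mem_univ s), h1]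
      congr 1
      exact Finset.prod_congr rfl fun s' hs' => by rw [h2 z s' (Finset.ne_of_mem_erase hs')]
    convert! (show ∏ s', B s' (fun ε' => Function.update v (s, ε) (c • x) (s', ε')) =
      c • ∏ s', B s' (fun ε' => Function.update v (s, ε) x (s', ε')) from ?_)
    rw [h3, h3, MultilinearMap.map_update_smul, smul_eq_mul, smul_eq_mul, mul_assoc]

theorem prodMap_apply (B : Fin m → MultilinearMap R (fun _ : Fin 2 => W) R)
    (v : Fin m × Fin 2 → W) : prodMap B v = ∏ s, B s (fun ε => v (s, ε)) := rfl

/-- The alternation of a product of bilinear forms is, up to the factor `2 ^ m`, that of the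
product of their alternations. -/
theorem alt_prod (B : Fin m → MultilinearMap R (fun _ : Fin 2 => W) R) (v : Fin m × Fin 2 → W) :
    ∑ σ : Perm (Fin m × Fin 2), ((Perm.sign σ : ℤ) : R) *
      ∏ s, (MultilinearMap.alternatization (B s)) (fun ε => v (σ (s, ε))) =
    (2 : R) ^ m * ∑ σ : Perm (Fin m × Fin 2), ((Perm.sign σ : ℤ) : R) *
      ∏ s, B s (fun ε => v (σ (s, ε))) := by
  classical
  have h1 : ∀ σ : Perm (Fin m × Fin 2),
      ∏ s, (MultilinearMap.alternatization (B s)) (fun ε => v (σ (s, ε))) =
      ∑ τ : Fin m → Perm (Fin 2), ((Perm.sign (prodCongrRight τ) : ℤ) : R) *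
        ∏ s, B s (fun ε => v (σ (s, τ s ε))) := by
    intro σ
    have h2 : ∀ s, (MultilinearMap.alternatization (B s)) (fun ε => v (σ (s, ε))) =
        ∑ τ : Perm (Fin 2), ((Perm.sign τ : ℤ) : R) * B s (fun ε => v (σ (s, τ ε))) := by
      intro s
      rw [MultilinearMap.alternatization_apply]
      refine Finset.sum_congr rfl fun τ _ => ?_
      rw [Units.smul_def, zsmul_eq_mul]
      rfl
    rw [Finset.prod_congr rfl (fun s _ => h2 s), Finset.prod_univ_sum, Fintype.piFinset_univ]
    refine Finset.sum_congr rfl fun τ _ => ?_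
    rw [Finset.prod_mul_distrib, Perm.sign_prodCongrRight]
    congr 1
    push_cast
    rfl
  rw [Finset.sum_congr rfl (fun σ _ => by rw [h1 σ, Finset.mul_sum]), Finset.sum_comm]
  have h3 : ∀ τ : Fin m → Perm (Fin 2), ∑ σ : Perm (Fin m × Fin 2), ((Perm.sign σ : ℤ) : R) *
      (((Perm.sign (prodCongrRight τ) : ℤ) : R) * ∏ s, B s (fun ε => v (σ (s, τ s ε)))) =
      ∑ σ : Perm (Fin m × Fin 2), ((Perm.sign σ : ℤ) : R) * ∏ s, B s (fun ε => v (σ (s, ε))) := by
    intro τ
    refine Fintype.sum_equiv (Equiv.mulRight (prodCongrRight τ : Perm (Fin m × Fin 2))) _ _ ?_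
    intro σ
    rw [Equiv.coe_mulRight, map_mul]
    push_cast
    rw [mul_assoc]
    rfl
  rw [Finset.sum_congr rfl (fun τ _ => h3 τ), Finset.sum_const, Finset.card_univ,
    Fintype.card_fun, Fintype.card_perm, Fintype.card_fin, Fintype.card_fin, nsmul_eq_mul]
  push_cast
  norm_num [Nat.factorial]

/-- The alternation of a form. -/
def altFun {κ : Type*} [Fintype κ] [DecidableEq κ] :
    ((κ → W) → R) →ₗ[R] ((κ → W) → R) where
  toFun g := fun v => ∑ σ : Perm κ, ((Perm.sign σ : ℤ) : R) * g (fun l => v (σ l))
  map_add' a b := by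
    funext v
    simp only [Pi.add_apply, mul_add, Finset.sum_add_distrib]
  map_smul' a b := by
    funext v
    simp only [Pi.smul_apply, smul_eq_mul, RingHom.id_apply, Finset.mul_sum]
    exact Finset.sum_congr rfl fun σ _ => by ring

theorem altFun_alt {κ : Type*} [Fintype κ] [DecidableEq κ] (f : W [⋀^κ]→ₗ[R] R) :
    altFun (fun v => f v) = ((Fintype.card κ).factorial : R) • fun v => f v := by
  funext v
  change ∑ σ : Perm κ, ((Perm.sign σ : ℤ) : R) * f (fun l => v (σ l)) = _
  have h1 : ∀ σ : Perm κ, ((Perm.sign σ : ℤ) : R) * f (fun l => v (σ l)) = f v := by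
    intro σ
    have h2 := f.map_perm v σ
    rw [show (fun l => v (σ l)) = v ∘ σ from rfl, h2, Units.smul_def, zsmul_eq_mul, ← mul_assoc,
      ← Int.cast_mul, ← Units.val_mul, Int.units_mul_self, Units.val_one, Int.cast_one, one_mul]
  rw [Finset.sum_congr rfl (fun σ _ => h1 σ), Finset.sum_const, Finset.card_univ,
    Fintype.card_perm, nsmul_eq_mul]
  rfl

end

end Pool.Agent.H204R3.CM
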