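import Mathlib
import Pool.Agent.H86.CMLib.H204R3.CM.Fixed

/-!
# The combinatorial core for families, at the prime `2`
-/

namespace Pool.Agent.H204R3.CM

open MulAction Pool.Agent.H925R2

theorem neg_two (a : ZMod 2) : -a = a := by
  revert a
  decide

theorem one_two (a : ZMod 2) (h : a ≠ 0) : a = 1 := by
  revert a
  decide

section

variable {ι : Type*} [Fintype ι] [DecidableEq ι] {G : Type*} [Group G] [Finite G]
  (Y : ι → Type*) [∀ i, Fintype (Y i)] [∀ i, DecidableEq (Y i)] [∀ i, MulAction G (Y i)]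

/-- A relation between all translates of the vector `± 1` given by half systems `Φ i` on the sets
`Y i` of cardinality `2 ^ (k i + 1)` is trivial, if for every nonempty set `S` of indices there is a
group element for which the number of elements of the `Φ i`, `i ∈ S`, that leave `Φ i` is odd. -/
theorem core_two [∀ i, IsPretransitive G (Y i)] (inv : ∀ i, Y i → Y i)
    (hinv : ∀ i x, inv i (inv i x) = x) (hne : ∀ i x, inv i x ≠ x)
    (hG : ∀ (g : G) (i : ι) (x : Y i), g • inv i x = inv i (g • x))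
    (k : ι → ℕ) (hcard : ∀ i, Fintype.card (Y i) = 2 * 2 ^ k i)
    (Φ : ∀ i, Finset (Y i)) (hΦ : ∀ i, IsHalf (inv i) (Φ i))
    (hS : ∀ S : Finset ι, S.Nonempty →
      ∃ g : G, Odd (∑ i ∈ S, ((Φ i).filter (fun x => g • x ∉ Φ i)).card))
    (c : ∀ i, Y i → ℤ) (hc : ∀ i x, c i (inv i x) = -c i x)
    (hrel : ∀ g : G, ∑ i, ∑ x, c i x * (if g • x ∈ Φ i then 1 else -1) = 0) :
    ∀ i x, c i x = 0 := by
  classical
  by_contra hcon
  push Not at hcon
  obtain ⟨i₀, x₀, hx₀⟩ := hcon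
  have _ : Fact (Nat.Prime 2) := ⟨Nat.prime_two⟩
  obtain ⟨S⟩ : Nonempty (Sylow 2 G) := inferInstance
  let I : (Σ i, Y i) → (Σ i, Y i) := fun x => ⟨x.1, inv x.1 x.2⟩
  let e : (Σ i, Y i) → ℤ := fun x => if x.2 ∈ Φ x.1 then 1 else -1
  have he : ∀ x, e (I x) = -e x := by
    rintro ⟨i, x⟩
    by_cases h : x ∈ Φ i
    · have h2 : inv i x ∉ Φ i := (hΦ i x).1 h
      simp only [e, I, h, h2, if_true, if_false]
    · have h2 : inv i x ∈ Φ i := by
        by_contra h3
        exact h ((hΦ i x).2 h3)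
      simp only [e, I, h, h2, if_true, if_false, neg_neg]
  have hI2 : ∀ x, I (I x) = x := by
    rintro ⟨i, x⟩
    simp only [I, hinv]
  have hIne : ∀ x, I x ≠ x := by
    rintro ⟨i, x⟩ h
    simp only [I, Sigma.mk.injEq, heq_eq_eq, true_and] at h
    exact hne i x h
  have hIG : ∀ (g : G) (x : Σ i, Y i), g • I x = I (g • x) := by
    rintro g ⟨i, x⟩
    simp only [I, Sigma.smul_mk, hG]
  obtain ⟨f, ⟨y₀, hy₀⟩, hf1, hf2, hf3⟩ := exists_fixed (inv := I) hI2 hIG 2 S
    {u | ∃ h g : G, ∀ x, 2 * u x = e (h • x) - e (g • x)}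
    (by
      rintro u ⟨h, g, hu⟩ t
      exact ⟨h * t, g * t, fun x => by rw [hu (t • x), mul_smul, mul_smul]⟩)
    (by
      rintro u ⟨h, g, hu⟩ x
      have h1 := hu x
      have h2 := hu (I x)
      rw [hIG, hIG, he, he] at h2
      omega)
    (fun x => c x.1 x.2) (by
      rintro ⟨i, x⟩
      exact hc i x)
    (by
      rintro u ⟨h, g, hu⟩
      have h1 : ∀ g : G, ∑ x : Σ i, Y i, c x.1 x.2 * e (g • x) = 0 := by
        intro g
        rw [Fintype.sum_sigma]
        exact hrel g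
      have h2 : 2 * ∑ x : Σ i, Y i, c x.1 x.2 * u x = 0 := by
        rw [Finset.mul_sum]
        have h3 : ∀ x : Σ i, Y i, 2 * (c x.1 x.2 * u x) =
            c x.1 x.2 * e (h • x) - c x.1 x.2 * e (g • x) := by
          intro x
          rw [mul_left_comm, hu x, mul_sub]
        rw [Finset.sum_congr rfl (fun x _ => h3 x), Finset.sum_sub_distrib, h1, h1, sub_zero]
      omega)
    ⟨⟨i₀, x₀⟩, hx₀⟩
  have hneg := neg_two
  have hconst : ∀ i (x y : Y i), f ⟨i, x⟩ = f ⟨i, y⟩ := by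
    intro i x y
    obtain ⟨s, hs | hs⟩ := sylow_pairs (hinv i) (hne i) (fun g x => hG g i x) 2 (k i) (hcard i) S x y
    · rw [← hf2 s ⟨i, x⟩]
      congr 1
      exact congrArg (Sigma.mk i) hs
    · rw [← hf2 s ⟨i, x⟩, ← hneg (f ⟨i, y⟩), ← hf1 ⟨i, y⟩]
      congr 1
      exact congrArg (Sigma.mk i) hs
  have hone := one_two
  let S0 : Finset ι := Finset.univ.filter (fun i => ∃ x : Y i, f ⟨i, x⟩ ≠ 0)
  have hS0 : S0.Nonempty := ⟨y₀.1, by
    simp only [S0, Finset.mem_filter, Finset.mem_univ, true_and]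
    exact ⟨y₀.2, hy₀⟩⟩
  obtain ⟨g, hg⟩ := hS S0 hS0
  let u : (Σ i, Y i) → ℤ := fun x => (e x - e (g • x)) / 2
  have he2 : ∀ x, e x = 1 ∨ e x = -1 := by
    intro x
    simp only [e]
    split_ifs
    · exact Or.inl rfl
    · exact Or.inr rfl
  have hu2 : ∀ x, 2 * u x = e x - e (g • x) := by
    intro x
    simp only [u]
    rcases he2 x with h | h <;> rcases he2 (g • x) with h' | h' <;> rw [h, h'] <;> norm_num
  have hhalf : IsHalf I (Finset.univ.sigma Φ) := by
    rintro ⟨i, x⟩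
    simp only [Finset.mem_sigma, Finset.mem_univ, true_and, I]
    exact hΦ i x
  have h1 := hf3 u ⟨1, g, fun x => by rw [hu2 x, one_smul]⟩ (Finset.univ.sigma Φ) hhalf
  rw [Finset.sum_sigma] at h1
  have h2 : ∀ i, ∑ x ∈ Φ i, f ⟨i, x⟩ * ((u ⟨i, x⟩ : ℤ) : ZMod 2) =
      if i ∈ S0 then ((((Φ i).filter (fun x => g • x ∉ Φ i)).card : ℕ) : ZMod 2) else 0 := by
    intro i
    have h3 : ∀ x ∈ Φ i, ((u ⟨i, x⟩ : ℤ) : ZMod 2) = if g • x ∉ Φ i then 1 else 0 := by
      intro x hx
      by_cases h4 : g • x ∈ Φ i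
      · have h5 : u ⟨i, x⟩ = 0 := by
          change ((if x ∈ Φ i then (1 : ℤ) else -1) - (if g • x ∈ Φ i then 1 else -1)) / 2 = 0
          rw [if_pos hx, if_pos h4]
          norm_num
        rw [h5, if_neg (not_not.2 h4), Int.cast_zero]
      · have h5 : u ⟨i, x⟩ = 1 := by
          change ((if x ∈ Φ i then (1 : ℤ) else -1) - (if g • x ∈ Φ i then 1 else -1)) / 2 = 1
          rw [if_pos hx, if_neg h4]
          norm_num
        rw [h5, if_pos h4, Int.cast_one]
    by_cases hi : i ∈ S0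
    · rw [if_pos hi]
      have h4 : ∀ x : Y i, f ⟨i, x⟩ = 1 := by
        simp only [S0, Finset.mem_filter, Finset.mem_univ, true_and] at hi
        obtain ⟨z, hz⟩ := hi
        intro x
        rw [hconst i x z]
        exact hone _ hz
      rw [Finset.sum_congr rfl (fun x hx => by rw [h4 x, one_mul, h3 x hx]), Finset.sum_boole]
    · rw [if_neg hi]
      refine Finset.sum_eq_zero fun x _ => ?_
      have h4 : f ⟨i, x⟩ = 0 := by
        by_contra h5
        apply hi
        simp only [S0, Finset.mem_filter, Finset.mem_univ, true_and]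
        exact ⟨x, h5⟩
      rw [h4, zero_mul]
  rw [Finset.sum_congr rfl (fun i _ => h2 i), ← Finset.sum_filter, Finset.filter_mem_eq_inter,
    Finset.univ_inter, ← Nat.cast_sum] at h1
  rw [ZMod.natCast_eq_zero_iff] at h1
  rw [← Nat.not_even_iff_odd] at hg
  exact hg (even_iff_two_dvd.2 h1)

end

end Pool.Agent.H204R3.CM
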