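import Mathlib
import Pool.Agent.H86.CMLib.H925R2.Core

/-!
# Matching the positions of a balanced word
-/

namespace Pool.Agent.H204R3.CM

open Pool.Agent.H925R2

/-- If every letter `y` occurs as often as `inv y`, the positions can be paired. -/
theorem exists_matching {κ Y : Type*} [Fintype κ] [DecidableEq κ] [Fintype Y] [DecidableEq Y]
    {inv : Y → Y} (hinv : ∀ x, inv (inv x) = x) (hne : ∀ x, inv x ≠ x) (a : κ → Y)
    (hcount : ∀ y, (Finset.univ.filter (fun l => a l = y)).card =
      (Finset.univ.filter (fun l => a l = inv y)).card)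
    (m : ℕ) (hm : Fintype.card κ = 2 * m) :
    ∃ e : Fin m × Fin 2 ≃ κ, ∀ s, a (e (s, 1)) = inv (a (e (s, 0))) := by
  classical
  obtain ⟨Φ, hΦ⟩ := exists_isHalf hinv hne
  have hc : ∀ y, Nonempty ({l // a l = y} ≃ {l // a l = inv y}) := by
    intro y
    refine ⟨Fintype.equivOfCardEq ?_⟩
    rw [Fintype.card_subtype, Fintype.card_subtype]
    exact hcount y
  let eq := fun y => Classical.choice (hc y)
  let β : κ → κ := fun l => (eq (a l) ⟨l, rfl⟩).1
  have hβ : ∀ l, a (β l) = inv (a l) := fun l => (eq (a l) ⟨l, rfl⟩).2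
  have hβ2 : ∀ y (l : {l // a l = y}), β l.1 = (eq y l).1 := by
    rintro y ⟨l, rfl⟩
    rfl
  have hβinj : Function.Injective β := by
    intro l l' hll
    have h1 : a l = a l' := by
      have h2 := congrArg a hll
      rw [hβ, hβ] at h2
      rw [← hinv (a l), h2, hinv]
    have h2 : (eq (a l') ⟨l, h1⟩).1 = (eq (a l') ⟨l', rfl⟩).1 := by
      rw [← hβ2 (a l') ⟨l, h1⟩]
      exact hll
    have h3 := (eq (a l')).injective (Subtype.ext h2)
    exact congrArg Subtype.val h3
  let g : {l // a l ∈ Φ} × Fin 2 → κ := fun x => if x.2 = 0 then x.1.1 else β x.1.1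
  have hmem : ∀ y, y ∉ Φ → inv y ∈ Φ := by
    intro y hy
    by_contra h
    exact hy ((hΦ y).2 h)
  have hg : Function.Bijective g := by
    constructor
    · rintro ⟨⟨l, hl⟩, ε⟩ ⟨⟨l', hl'⟩, ε'⟩ h
      have hne' : ∀ l l' : κ, a l ∈ Φ → a l' ∈ Φ → l ≠ β l' := by
        intro l l' h1 h2 h3
        rw [h3, hβ] at h1
        exact ((hΦ _).1 h2) h1
      fin_cases ε <;> fin_cases ε'
      · simp [g] at h
        simp [h]
      · simp [g] at h
        exact absurd h (hne' l l' hl hl')
      · simp [g] at h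
        exact absurd h.symm (hne' l' l hl' hl)
      · simp [g] at h
        simp [hβinj h]
    · intro l
      by_cases hl : a l ∈ Φ
      · exact ⟨(⟨l, hl⟩, 0), by simp [g]⟩
      · let l' := (eq (inv (a l))).symm ⟨l, (hinv _).symm⟩
        have h1 : a l'.1 = inv (a l) := l'.2
        refine ⟨(⟨l'.1, by rw [h1]; exact hmem _ hl⟩, 1), ?_⟩
        have h2 : β l'.1 = l := by
          rw [hβ2 (inv (a l)) l']
          simp [l']
        simpa [g] using h2
  let ge : {l // a l ∈ Φ} × Fin 2 ≃ κ := Equiv.ofBijective g hg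
  have hcard : Fintype.card {l // a l ∈ Φ} = m := by
    have h1 := Fintype.card_congr ge
    rw [Fintype.card_prod, Fintype.card_fin, hm] at h1
    omega
  let e1 : Fin m ≃ {l // a l ∈ Φ} := (Fintype.equivFinOfCardEq hcard).symm
  refine ⟨(Equiv.prodCongr e1 (Equiv.refl (Fin 2))).trans ge, fun s => ?_⟩
  change a (g (e1 s, 1)) = inv (a (g (e1 s, 0)))
  simp [g, hβ]

end Pool.Agent.H204R3.CM
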