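import Mathlib
import Pool.Agent.H86.CMLib.H204R3.CM.Expand
import Pool.Agent.H86.CMLib.H204R3.CM.Disc

/-!
# Coefficients of rational forms in a number field
-/

set_option linter.unusedSectionVars false
set_option linter.unusedVariables false

namespace Pool.Agent.H204R3.CM

open NumberField Module

noncomputable section

variable {ι J : Type*} [Fintype J] {E : ι → Type*} [∀ i, Field (E i)] [∀ i, NumberField (E i)]
  {L : Type*} [Field L] [NumberField L]
  (Φ : ∀ i, Set (E i →+* ℂ)) (t : J → ι) (j : L →+* ℂ)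

theorem trace_emb {F : Type*} [Field F] [NumberField F]
    (h : ∀ ψ : F →+* ℂ, ∃ φ : F →+* L, j.comp φ = ψ) (x : F) :
    ((Algebra.trace ℚ F x : ℚ) : L) = ∑ φ : F →+* L, φ x := by
  apply j.injective
  rw [map_ratCast, map_sum]
  have h1 := trace_eq_sum_embeddings (K := ℚ) (L := F) ℂ (x := x)
  rw [eq_ratCast] at h1
  rw [h1]
  exact (Fintype.sum_equiv ((embEquiv j h).trans (RingHom.equivRatAlgHom F ℂ)) _ _
    (fun φ => rfl)).symm

theorem exists_trace {F : Type*} [Field F] [NumberField F] (lam : F →ₗ[ℚ] ℚ) :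
    ∃ α : F, ∀ x, lam x = Algebra.trace ℚ F (α * x) := by
  have h := traceForm_nondegenerate ℚ F
  refine ⟨((Algebra.traceForm ℚ F).toDual h).symm lam, fun x => ?_⟩
  rw [← Algebra.traceForm_apply, LinearMap.BilinForm.apply_toDual_symm_apply]

theorem func_coeff (h : ∀ i, ∀ ψ : E i →+* ℂ, ∃ φ : E i →+* L, j.comp φ = ψ)
    (lam : (∀ j, E (t j)) →ₗ[ℚ] ℚ) :
    ∃ a : XX E t L → L, ∀ w, ((lam w : ℚ) : L) = ∑ x, a x * chi E t L w x := by
  classical
  have h1 : ∀ i : J, ∃ α : E (t i), ∀ x, (lam.comp (LinearMap.single ℚ (fun j => E (t j)) i)) x =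
      Algebra.trace ℚ (E (t i)) (α * x) := fun i => exists_trace _
  choose α hα using h1
  refine ⟨fun x => x.2 (α x.1), fun w => ?_⟩
  have h2 : w = ∑ i, Pi.single i (w i) := (Finset.univ_sum_single w).symm
  rw [Fintype.sum_sigma]
  conv_lhs => rw [h2]
  rw [map_sum, Rat.cast_sum]
  refine Finset.sum_congr rfl fun i _ => ?_
  have h3 := hα i (w i)
  rw [LinearMap.comp_apply, LinearMap.single_apply] at h3
  rw [h3, trace_emb j (h (t i))]
  refine Finset.sum_congr rfl fun φ _ => ?_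
  rw [map_mul]
  rfl

variable {κ : Type*} [Fintype κ] [DecidableEq κ]

theorem form_coeff (h : ∀ i, ∀ ψ : E i →+* ℂ, ∃ φ : E i →+* L, j.comp φ = ψ)
    (f : MultilinearMap ℚ (fun _ : κ => ∀ j, E (t j)) ℚ) :
    ∃ c : (κ → XX E t L) → L, ∀ v : κ → ∀ j, E (t j),
      ((f v : ℚ) : L) = ∑ I : κ → XX E t L, c I * ∏ l, chi E t L (v l) (I l) := by
  classical
  let b := Module.finBasis ℚ (∀ j, E (t j))
  have h1 := fun s => func_coeff t j h (b.coord s)
  choose a ha using h1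
  refine ⟨fun I => ∑ r : κ → Fin (finrank ℚ (∀ j, E (t j))), ((f (fun l => b (r l)) : ℚ) : L) *
    ∏ l, a (r l) (I l), fun v => ?_⟩
  have h2 : f v = ∑ r : κ → Fin (finrank ℚ (∀ j, E (t j))),
      (∏ l, b.coord (r l) (v l)) * f (fun l => b (r l)) := by
    have h3 : v = fun l => ∑ s, b.coord s (v l) • b s := by
      funext l
      exact (b.sum_repr (v l)).symm
    conv_lhs => rw [h3]
    rw [MultilinearMap.map_sum]
    refine Finset.sum_congr rfl fun r _ => ?_
    rw [MultilinearMap.map_smul_univ, smul_eq_mul]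
  rw [h2, Rat.cast_sum]
  simp only [Finset.sum_mul]
  rw [Finset.sum_comm]
  refine Finset.sum_congr rfl fun r _ => ?_
  rw [Rat.cast_mul, Rat.cast_prod, Finset.prod_congr rfl (fun l _ => ha (r l) (v l)),
    Finset.prod_univ_sum, Fintype.piFinset_univ, Finset.sum_mul]
  refine Finset.sum_congr rfl fun I _ => ?_
  rw [Finset.prod_mul_distrib]
  ring

/-- The embeddings into `L` and into the complex numbers, for the product. -/
def xEquiv (h : ∀ i, ∀ ψ : E i →+* ℂ, ∃ φ : E i →+* L, j.comp φ = ψ) : XX E t L ≃ XX E t ℂ :=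
  Equiv.sigmaCongrRight fun i => embEquiv j (h (t i))

variable {Φ}

open Classical in
theorem balanced_of_hodge (hΦ : ∀ i, IsCMType (Φ i))
    (h : ∀ i, ∀ ψ : E i →+* ℂ, ∃ φ : E i →+* L, j.comp φ = ψ)
    (f : (∀ j, E (t j)) [⋀^κ]→ₗ[ℚ] ℚ) (hf : IsHodge (per Φ t) f)
    (c : (κ → XX E t L) → L) (hc : ∀ v : κ → ∀ j, E (t j),
      ((f v : ℚ) : L) = ∑ I : κ → XX E t L, c I * ∏ l, chi E t L (v l) (I l))
    (I : κ → XX E t L) (hI : c I ≠ 0) (σ : L ≃ₐ[ℚ] L) :
    ∑ l, (if j.comp (σ • (I l).2) ∈ Φ (t (I l).1) then (1 : ℤ) else -1) = 0 := by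
  obtain ⟨ψ, hψ1, hψ2⟩ := hf
  let τ : L →+* ℂ := j.comp (σ : L →+* L)
  have hτ : ∀ i, ∀ ψ : E i →+* ℂ, ∃ φ : E i →+* L, τ.comp φ = ψ := by
    intro i ψ
    obtain ⟨φ, rfl⟩ := h i ψ
    refine ⟨σ.symm • φ, RingHom.ext fun x => ?_⟩
    change j (σ (σ.symm (φ x))) = j (φ x)
    rw [AlgEquiv.apply_symm_apply]
  let e : (κ → XX E t L) ≃ (κ → XX E t ℂ) := Equiv.arrowCongr (Equiv.refl κ) (xEquiv t τ hτ)
  have h1 := balanced_of_type t hΦ (fun I' => τ (c (e.symm I'))) ψ (by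
    intro v
    rw [hψ1 v]
    have h2 := congrArg τ (hc v)
    rw [map_ratCast] at h2
    push_cast
    rw [h2, map_sum]
    refine Fintype.sum_equiv e _ _ fun I => ?_
    rw [map_mul, map_prod, Equiv.symm_apply_apply]
    rfl) hψ2 (e I) (by
      rw [Equiv.symm_apply_apply]
      exact fun h0 => hI ((map_eq_zero τ).1 h0))
  exact h1

end

end Pool.Agent.H204R3.CM
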