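import Mathlib
import Pool.Agent.H86.CMLib.H204R3.CM.Pair
import Pool.Agent.H86.CMLib.H204R3.CM.Match
import Pool.Agent.H86.CMLib.H204R3.CM.Alt

/-!
# Nondegenerate families of CM types: all Hodge classes are generated in degree two
-/

set_option linter.unusedSectionVars false
set_option linter.unusedVariables false

namespace Pool.Agent.H204R3.CM

open NumberField Module Equiv

noncomputable section

/-- Descent of spans of rational functions. -/
theorem span_descent {L X : Type*} [Field L] [CharZero L] (S : Set (X → ℚ)) (f : X → ℚ)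
    (hf : (fun x => ((f x : ℚ) : L)) ∈
      Submodule.span L {g : X → L | ∃ s ∈ S, g = fun x => ((s x : ℚ) : L)}) :
    f ∈ Submodule.span ℚ S := by
  have key : ∀ g ∈ Submodule.span L {g : X → L | ∃ s ∈ S, g = fun x => ((s x : ℚ) : L)},
      ∀ π : L →ₗ[ℚ] ℚ, (fun x => π (g x)) ∈ Submodule.span ℚ S := by
    intro g hg
    induction hg using Submodule.span_induction with
    | mem g hg =>
      obtain ⟨s, hs, rfl⟩ := hg
      intro π
      have h1 : (fun x => π ((s x : ℚ) : L)) = π 1 • s := by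
        funext x
        have h2 : ((s x : ℚ) : L) = s x • (1 : L) := by
          rw [Rat.smul_def, mul_one]
        rw [h2, map_smul, Pi.smul_apply, smul_eq_mul, smul_eq_mul, mul_comm]
      rw [h1]
      exact Submodule.smul_mem _ _ (Submodule.subset_span hs)
    | zero =>
      intro π
      simp only [Pi.zero_apply, map_zero]
      exact Submodule.zero_mem _
    | add a b _ _ ha hb =>
      intro π
      simp only [Pi.add_apply, map_add]
      exact Submodule.add_mem _ (ha π) (hb π)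
    | smul c a _ ha =>
      intro π
      exact ha (π.comp (LinearMap.mulLeft ℚ c))
  obtain ⟨π, hπ⟩ := LinearMap.exists_leftInverse_of_injective
    ((Algebra.linearMap ℚ L)) (LinearMap.ker_eq_bot.2 (algebraMap ℚ L).injective)
  have h1 := key _ hf π
  have h2 : (fun x => π ((f x : ℚ) : L)) = f := by
    funext x
    have h3 := LinearMap.congr_fun hπ (f x)
    rw [LinearMap.comp_apply, Algebra.linearMap_apply, eq_ratCast, LinearMap.id_apply] at h3
    exact h3
  rwa [h2] at h1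

variable {ι J : Type*} [Fintype ι] [Fintype J] {E : ι → Type*} [∀ i, Field (E i)]
  [∀ i, NumberField (E i)] [∀ i, IsCMField (E i)]
  {L : Type*} [Field L] [NumberField L]
  {Φ : ∀ i, Set (E i →+* ℂ)} (hΦ : ∀ i, IsCMType (Φ i)) (t : J → ι) (j : L →+* ℂ)

/-- The conjugate of an embedding. -/
def cbar {F L : Type*} [Field F] [NumberField F] [IsCMField F] [Field L] (φ : F →+* L) : F →+* L :=
  φ.comp (IsCMField.complexConj F : F →+* F)

theorem cbar_apply {F L : Type*} [Field F] [NumberField F] [IsCMField F] [Field L]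
    (φ : F →+* L) (x : F) : cbar φ x = φ (IsCMField.complexConj F x) := rfl

theorem cbar_cbar {F L : Type*} [Field F] [NumberField F] [IsCMField F] [Field L]
    (φ : F →+* L) : cbar (cbar φ) = φ := by
  ext x
  rw [cbar_apply, cbar_apply, IsCMField.complexConj_apply_apply]

theorem cbar_ne {F L : Type*} [Field F] [NumberField F] [IsCMField F] [Field L]
    (φ : F →+* L) : cbar φ ≠ φ := by
  intro h
  apply IsCMField.complexConj_ne_one F
  ext x
  apply φ.injective
  exact RingHom.congr_fun h x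

theorem comp_cbar {F L : Type*} [Field F] [NumberField F] [IsCMField F] [Field L]
    (τ : L →+* ℂ) (φ : F →+* L) :
    τ.comp (cbar φ) = ComplexEmbedding.conjugate (τ.comp φ) := by
  ext x
  rw [ComplexEmbedding.conjugate_coe_eq]
  exact IsCMField.complexEmbedding_complexConj F (τ.comp φ) x

/-- The family of CM types is nondegenerate: the translates of its characteristic vector by the
Galois group of `L` span the space of antisymmetric vectors (stated dually). -/
def Nondeg (Φ : ∀ i, Set (E i →+* ℂ)) (j : L →+* ℂ) : Prop := by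
  classical
  exact ∀ c : ∀ i, (E i →+* L) → ℤ, (∀ i φ, c i (cbar φ) = -c i φ) →
    (∀ σ : L ≃ₐ[ℚ] L,
      ∑ i, ∑ φ, c i φ * (if j.comp (σ • φ) ∈ Φ i then (1 : ℤ) else -1) = 0) →
    ∀ i φ, c i φ = 0

/-- The projection of the tangent space to one factor. -/
def tanProj (Φ : ∀ i, Set (E i →+* ℂ)) (t : J → ι) (a : J) : Tan Φ t →ₗ[ℂ] (Φ (t a) → ℂ) :=
  LinearMap.proj a

include hΦ in
theorem pair_expand' {W T : Type*} [AddCommGroup W] [Module ℚ W] [AddCommGroup T] [Module ℂ T]
    (per : W →+ T) (i i' : ι) (A : W →ₗ[ℚ] E i) (A' : W →ₗ[ℚ] E i')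
    (At : T →ₗ[ℂ] (Φ i → ℂ)) (At' : T →ₗ[ℂ] (Φ i' → ℂ))
    (hA : ∀ w φ, At (per w) φ = φ.1 (A w)) (hA' : ∀ w φ, At' (per w) φ = φ.1 (A' w))
    (φ : E i →+* L) (φ' : E i' →+* L)
    (hh : (⟨i', φ'⟩ : Σ i, (E i →+* L)) = ⟨i, cbar φ⟩) :
    ∃ (n : ℕ) (a : Fin n → L) (B : Fin n → MultilinearMap ℚ (fun _ : Fin 2 => W) ℚ),
      (∀ r, HodgeMul per (B r)) ∧ ∀ v : Fin 2 → W,
        φ (A (v 0)) * φ' (A' (v 1)) = ∑ r, a r * ((B r v : ℚ) : L) := by
  obtain ⟨rfl, h⟩ := Sigma.mk.inj_iff.1 hh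
  have h' := eq_of_heq h
  subst h'
  exact pair_expand (hΦ i') per A A' At At' hA hA' φ

variable {m : ℕ}

/-- The products of Hodge bilinear forms. -/
def prodSet {W T : Type*} [AddCommGroup W] [Module ℚ W] [AddCommGroup T] [Module ℂ T]
    (per : W →+ T) (m : ℕ) : Set ((Fin m × Fin 2 → W) → ℚ) :=
  {g | ∃ (e : Perm (Fin m × Fin 2)) (B : Fin m → MultilinearMap ℚ (fun _ : Fin 2 => W) ℚ),
    (∀ s, HodgeMul per (B s)) ∧ g = fun v => ∏ s, B s (fun ε => v (e (s, ε)))}

include hΦ in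
theorem mono_mem (I : Fin m × Fin 2 → XX E t L) (e : Perm (Fin m × Fin 2))
    (he : ∀ s, (⟨t (I (e (s, 1))).1, (I (e (s, 1))).2⟩ : Σ i, (E i →+* L)) =
      ⟨t (I (e (s, 0))).1, cbar (I (e (s, 0))).2⟩) :
    (fun v : Fin m × Fin 2 → ∀ a, E (t a) => ∏ l, chi E t L (v l) (I l)) ∈
      Submodule.span L {g | ∃ s ∈ prodSet (per Φ t) m, g = fun x => ((s x : ℚ) : L)} := by
  classical
  have h1 : ∀ s, ∃ (n : ℕ) (a : Fin n → L)
      (B : Fin n → MultilinearMap ℚ (fun _ : Fin 2 => ∀ a, E (t a)) ℚ),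
      (∀ r, HodgeMul (per Φ t) (B r)) ∧ ∀ v : Fin 2 → ∀ a, E (t a),
        chi E t L (v 0) (I (e (s, 0))) * chi E t L (v 1) (I (e (s, 1))) =
          ∑ r, a r * ((B r v : ℚ) : L) := by
    intro s
    exact pair_expand' hΦ (per Φ t) (t (I (e (s, 0))).1) (t (I (e (s, 1))).1)
      (LinearMap.proj (I (e (s, 0))).1) (LinearMap.proj (I (e (s, 1))).1)
      (tanProj Φ t _) (tanProj Φ t _) (fun w φ => rfl) (fun w φ => rfl)
      (I (e (s, 0))).2 (I (e (s, 1))).2 (he s)
  choose n a B hB hv using h1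
  have h2 : (fun v : Fin m × Fin 2 → ∀ a, E (t a) => ∏ l, chi E t L (v l) (I l)) =
      ∑ ρ : ∀ s, Fin (n s), (∏ s, a s (ρ s)) •
        (fun v : Fin m × Fin 2 → ∀ a, E (t a) =>
          ((∏ s, B s (ρ s) (fun ε => v (e (s, ε))) : ℚ) : L)) := by
    funext v
    rw [Finset.sum_apply, ← Equiv.prod_comp e, Fintype.prod_prod_type]
    simp only [Fin.prod_univ_two]
    rw [Finset.prod_congr rfl (fun s _ => hv s (fun ε => v (e (s, ε)))), Finset.prod_univ_sum,
      Fintype.piFinset_univ]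
    refine Finset.sum_congr rfl fun ρ _ => ?_
    rw [Finset.prod_mul_distrib, Pi.smul_apply, smul_eq_mul, Rat.cast_prod]
  rw [h2]
  refine Submodule.sum_mem _ fun ρ _ => Submodule.smul_mem _ _ (Submodule.subset_span ?_)
  exact ⟨_, ⟨e, fun s => B s (ρ s), fun s => hB s (ρ s), rfl⟩, rfl⟩

include hΦ in
/-- **Nondegenerate families.** All Hodge classes are linear combinations of wedge products of
Hodge classes of degree two. -/
theorem hodge_of_nondeg (h : ∀ i, ∀ ψ : E i →+* ℂ, ∃ φ : E i →+* L, j.comp φ = ψ)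
    (hnd : Nondeg Φ j)
    (f : (∀ a, E (t a)) [⋀^Fin m × Fin 2]→ₗ[ℚ] ℚ) (hf : IsHodge (per Φ t) f) :
    f ∈ Submodule.span ℚ {g : (∀ a, E (t a)) [⋀^Fin m × Fin 2]→ₗ[ℚ] ℚ |
      ∃ B : Fin m → (∀ a, E (t a)) [⋀^Fin 2]→ₗ[ℚ] ℚ, (∀ s, IsHodge (per Φ t) (B s)) ∧
        ∀ v, g v = ∑ σ : Perm (Fin m × Fin 2), (Perm.sign σ : ℤ) *
          ∏ s, B s ![v (σ (s, 0)), v (σ (s, 1))]} := by
  classical
  obtain ⟨c, hc⟩ := form_coeff t j h f.toMultilinearMap
  -- the balanced condition
  have hbal : ∀ I : Fin m × Fin 2 → XX E t L, c I ≠ 0 →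
      ∃ e : Perm (Fin m × Fin 2),
        ∀ s, (⟨t (I (e (s, 1))).1, (I (e (s, 1))).2⟩ : Σ i, (E i →+* L)) =
          ⟨t (I (e (s, 0))).1, cbar (I (e (s, 0))).2⟩ := by
    intro I hI
    have h1 := balanced_of_hodge t j hΦ h f hf c hc I hI
    let a : Fin m × Fin 2 → Σ i, (E i →+* L) := fun l => ⟨t (I l).1, (I l).2⟩
    let inv : (Σ i, (E i →+* L)) → Σ i, (E i →+* L) := fun y => ⟨y.1, cbar y.2⟩
    have hinv : ∀ y, inv (inv y) = y := by
      rintro ⟨i, φ⟩
      simp only [inv, cbar_cbar]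
    have hne : ∀ y, inv y ≠ y := by
      rintro ⟨i, φ⟩ hy
      simp only [inv, Sigma.mk.injEq, heq_eq_eq, true_and] at hy
      exact cbar_ne φ hy
    let N : (Σ i, (E i →+* L)) → ℤ := fun y => ((Finset.univ.filter (fun l => a l = y)).card : ℤ)
    have hN0 : ∀ i φ, N ⟨i, φ⟩ - N (inv ⟨i, φ⟩) = 0 := by
      have hnd' : ∀ c : ∀ i, (E i →+* L) → ℤ, (∀ i φ, c i (cbar φ) = -c i φ) →
          (∀ σ : L ≃ₐ[ℚ] L,
            ∑ i, ∑ φ, c i φ * (if j.comp (σ • φ) ∈ Φ i then (1 : ℤ) else -1) = 0) →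
          ∀ i φ, c i φ = 0 := hnd
      apply hnd' (fun i φ => N ⟨i, φ⟩ - N (inv ⟨i, φ⟩))
      · intro i φ
        have h2 : (⟨i, cbar φ⟩ : Σ i, (E i →+* L)) = inv ⟨i, φ⟩ := rfl
        rw [h2, hinv]
        ring
      · intro σ
        let u : (Σ i, (E i →+* L)) → ℤ := fun y => if j.comp (σ • y.2) ∈ Φ y.1 then 1 else -1
        have hu : ∀ y, u (inv y) = -u y := by
          rintro ⟨i, φ⟩
          have h3 : j.comp (σ • cbar φ) = ComplexEmbedding.conjugate (j.comp (σ • φ)) := by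
            rw [← comp_cbar]
            rfl
          change (if j.comp (σ • cbar φ) ∈ Φ i then (1 : ℤ) else -1) =
            -(if j.comp (σ • φ) ∈ Φ i then (1 : ℤ) else -1)
          rw [h3]
          by_cases h4 : j.comp (σ • φ) ∈ Φ i
          · rw [if_pos h4, if_neg ((hΦ i _).1 h4)]
          · rw [if_neg h4, if_pos (conj_mem hΦ h4), neg_neg]
        have h2 : ∑ y, N y * u y = 0 := by
          have h3 : ∀ y, N y * u y = ∑ l, if a l = y then u y else 0 := by
            intro y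
            rw [← Finset.sum_filter, Finset.sum_const, nsmul_eq_mul]
          rw [Finset.sum_congr rfl (fun y _ => h3 y), Finset.sum_comm]
          have h4 : ∀ l, ∑ y, (if a l = y then u y else 0) = u (a l) := by
            intro l
            rw [Finset.sum_ite_eq Finset.univ (a l), if_pos (Finset.mem_univ _)]
          rw [Finset.sum_congr rfl (fun l _ => h4 l)]
          exact h1 σ
        have h3 : ∑ y, N (inv y) * u y = 0 := by
          have h4 : ∑ y, N (inv y) * u y = ∑ y, -(N y * u y) := by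
            refine Finset.sum_nbij' inv inv (fun _ _ => Finset.mem_univ _)
              (fun _ _ => Finset.mem_univ _) (fun y _ => hinv y) (fun y _ => hinv y)
              (fun y _ => ?_)
            rw [hu]
            ring
          rw [h4, Finset.sum_neg_distrib, h2, neg_zero]
        have h4 : ∑ y, (N y - N (inv y)) * u y = 0 := by
          simp only [sub_mul, Finset.sum_sub_distrib, h2, h3, sub_zero]
        rw [Fintype.sum_sigma] at h4
        exact h4
    have hcount : ∀ y, (Finset.univ.filter (fun l => a l = y)).card =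
        (Finset.univ.filter (fun l => a l = inv y)).card := by
      rintro ⟨i, φ⟩
      have h2 := hN0 i φ
      have h3 : N ⟨i, φ⟩ = N (inv ⟨i, φ⟩) := by linarith
      exact Int.ofNat.inj h3
    obtain ⟨e, he⟩ := exists_matching hinv hne a hcount m (by
      rw [Fintype.card_prod, Fintype.card_fin, Fintype.card_fin, mul_comm])
    exact ⟨e, he⟩
  -- membership in the span over `L`
  have hL : (fun v : Fin m × Fin 2 → ∀ a, E (t a) => ((f v : ℚ) : L)) ∈
      Submodule.span L {g | ∃ s ∈ prodSet (per Φ t) m, g = fun x => ((s x : ℚ) : L)} := by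
    have h1 : (fun v : Fin m × Fin 2 → ∀ a, E (t a) => ((f v : ℚ) : L)) =
        ∑ I : Fin m × Fin 2 → XX E t L, c I •
          (fun v : Fin m × Fin 2 → ∀ a, E (t a) => ∏ l, chi E t L (v l) (I l)) := by
      funext v
      rw [Finset.sum_apply]
      exact hc v
    rw [h1]
    refine Submodule.sum_mem _ fun I _ => ?_
    by_cases hI : c I = 0
    · rw [hI, zero_smul]
      exact Submodule.zero_mem _
    · obtain ⟨e, he⟩ := hbal I hI
      exact Submodule.smul_mem _ _ (mono_mem hΦ t I e he)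
  have hQ := span_descent _ _ hL
  -- alternation
  have hA : altFun (R := ℚ) (fun v => f v) ∈
      Submodule.map (altFun (R := ℚ)) (Submodule.span ℚ (prodSet (per Φ t) m)) :=
    Submodule.mem_map_of_mem hQ
  rw [Submodule.map_span, altFun_alt] at hA
  let K : ((∀ a, E (t a)) [⋀^Fin m × Fin 2]→ₗ[ℚ] ℚ) →ₗ[ℚ] ((Fin m × Fin 2 → ∀ a, E (t a)) → ℚ) :=
    { toFun := fun g v => g v
      map_add' := fun _ _ => rfl
      map_smul' := fun _ _ => rfl }
  have hKinj : Function.Injective K := fun g g' h => AlternatingMap.ext fun v => congrFun h v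
  set 𝒯 : Set ((∀ a, E (t a)) [⋀^Fin m × Fin 2]→ₗ[ℚ] ℚ) :=
    {g | ∃ B : Fin m → (∀ a, E (t a)) [⋀^Fin 2]→ₗ[ℚ] ℚ, (∀ s, IsHodge (per Φ t) (B s)) ∧
        ∀ v, g v = ∑ σ : Perm (Fin m × Fin 2), (Perm.sign σ : ℤ) *
          ∏ s, B s ![v (σ (s, 0)), v (σ (s, 1))]} with h𝒯
  have hsub : altFun (R := ℚ) '' prodSet (per Φ t) m ⊆ (Submodule.span ℚ 𝒯).map K := by
    rintro _ ⟨_, ⟨e, B, hB, rfl⟩, rfl⟩
    let A : Fin m → (∀ a, E (t a)) [⋀^Fin 2]→ₗ[ℚ] ℚ := fun s =>
      MultilinearMap.alternatization (B s)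
    let g : (∀ a, E (t a)) [⋀^Fin m × Fin 2]→ₗ[ℚ] ℚ :=
      MultilinearMap.alternatization (prodMap (fun s => (A s).toMultilinearMap))
    have hg : ∀ v, g v = ∑ σ : Perm (Fin m × Fin 2), ((Perm.sign σ : ℤ) : ℚ) *
        ∏ s, A s (fun ε => v (σ (s, ε))) := by
      intro v
      change MultilinearMap.alternatization _ v = _
      rw [MultilinearMap.alternatization_apply]
      refine Finset.sum_congr rfl fun σ _ => ?_
      rw [Units.smul_def, zsmul_eq_mul]
      rfl
    have hgT : g ∈ 𝒯 := by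
      refine ⟨A, fun s => (hB s).alternatization, fun v => ?_⟩
      rw [hg v]
      refine Finset.sum_congr rfl fun σ _ => ?_
      congr 1
      refine Finset.prod_congr rfl fun s _ => ?_
      congr 1
      funext ε
      fin_cases ε <;> rfl
    refine ⟨(((Perm.sign e : ℤ) : ℚ) / 2 ^ m) • g,
      Submodule.smul_mem _ _ (Submodule.subset_span hgT), ?_⟩
    rw [map_smul]
    funext v
    have h2 : (K g) v = (2 : ℚ) ^ m * ∑ σ : Perm (Fin m × Fin 2), ((Perm.sign σ : ℤ) : ℚ) *
        ∏ s, B s (fun ε => v (σ (s, ε))) := by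
      change g v = _
      rw [hg v]
      exact alt_prod B v
    rw [Pi.smul_apply, h2, smul_eq_mul]
    have h3 : altFun (R := ℚ) (fun v => ∏ s, B s (fun ε => v (e (s, ε)))) v =
        ((Perm.sign e : ℤ) : ℚ) * ∑ σ : Perm (Fin m × Fin 2), ((Perm.sign σ : ℤ) : ℚ) *
          ∏ s, B s (fun ε => v (σ (s, ε))) := by
      change ∑ σ : Perm (Fin m × Fin 2), ((Perm.sign σ : ℤ) : ℚ) *
        ∏ s, B s (fun ε => v (σ (e (s, ε)))) = _
      rw [Finset.mul_sum]
      refine Fintype.sum_equiv (Equiv.mulRight e) _ _ fun σ => ?_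
      rw [Equiv.coe_mulRight, map_mul, Units.val_mul, Int.cast_mul]
      have h4 : ((Perm.sign e : ℤ) : ℚ) * ((Perm.sign e : ℤ) : ℚ) = 1 := by
        rw [← Int.cast_mul, ← Units.val_mul, Int.units_mul_self, Units.val_one, Int.cast_one]
      have h5 : ∏ s, B s (fun ε => v (σ (e (s, ε)))) = ∏ s, B s (fun ε => v ((σ * e) (s, ε))) := rfl
      rw [h5]
      linear_combination -(((Perm.sign σ : ℤ) : ℚ) * ∏ s, B s (fun ε => v ((σ * e) (s, ε)))) * h4
    rw [h3]
    have h6 : (2 : ℚ) ^ m ≠ 0 := by positivity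
    field_simp
  have h1 : ((Fintype.card (Fin m × Fin 2)).factorial : ℚ) • (fun v => f v) ∈
      (Submodule.span ℚ 𝒯).map K := Submodule.span_le.2 hsub hA
  have hne : ((Fintype.card (Fin m × Fin 2)).factorial : ℚ) ≠ 0 :=
    Nat.cast_ne_zero.2 (Nat.factorial_ne_zero _)
  have h2 : (fun v => f v) ∈ (Submodule.span ℚ 𝒯).map K := by
    have h3 := Submodule.smul_mem _ (((Fintype.card (Fin m × Fin 2)).factorial : ℚ))⁻¹ h1
    rwa [smul_smul, inv_mul_cancel₀ hne, one_smul] at h3
  obtain ⟨f', hf', hff⟩ := h2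
  have h3 : f' = f := hKinj hff
  rw [← h3]
  exact hf'

end

end Pool.Agent.H204R3.CM
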