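import Mathlib
import Pool.Agent.H86.CMLib.H925R2.Core

/-!
# The sign of a permutation that commutes with a fixed point free involution
-/

namespace Pool.Agent.H204R3.CM

open Pool.Agent.H925R2 Equiv

theorem sign_of_half {Y : Type*} [Fintype Y] [DecidableEq Y] {inv : Y → Y}
    (hinv : ∀ x, inv (inv x) = x) (Φ : Finset Y) (hΦ : IsHalf inv Φ)
    (π : Perm Y) (hπ : ∀ x, π (inv x) = inv (π x)) :
    (Perm.sign π : ℤ) = (-1) ^ (Φ.filter (fun x => π x ∉ Φ)).card := by
  classical
  have hmem : ∀ x, x ∉ Φ → inv x ∈ Φ := by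
    intro x hx
    by_contra h
    exact hx ((hΦ x).2 h)
  have hmem' : ∀ x, x ∈ Φ → inv x ∉ Φ := fun x hx => (hΦ x).1 hx
  let E : Φ × Bool ≃ Y :=
    { toFun := fun a => if a.2 then inv a.1.1 else a.1.1
      invFun := fun y => if h : y ∈ Φ then (⟨y, h⟩, false) else (⟨inv y, hmem y h⟩, true)
      left_inv := by
        rintro ⟨⟨x, hx⟩, b⟩
        cases b
        · simp [hx]
        · simp [hmem' x hx, hinv]
      right_inv := by
        intro y
        by_cases h : y ∈ Φ
        · simp [h]
        · simp [h, hinv] }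
  let p0 : Φ → Φ := fun x => if h : π x.1 ∈ Φ then ⟨π x.1, h⟩ else ⟨inv (π x.1), hmem _ h⟩
  have hp0 : Function.Injective p0 := by
    rintro ⟨x, hx⟩ ⟨y, hy⟩ h
    simp only [p0] at h
    apply Subtype.ext
    change x = y
    split_ifs at h with h1 h2 h2
    · exact π.injective (congrArg Subtype.val h)
    · have h3 : π x = inv (π y) := congrArg Subtype.val h
      rw [← hπ] at h3
      have h4 := π.injective h3
      exfalso
      apply hmem' y hy
      rw [← h4]
      exact hx
    · have h3 : inv (π x) = π y := congrArg Subtype.val h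
      rw [← hπ] at h3
      have h4 := π.injective h3
      exfalso
      apply hmem' x hx
      rw [h4]
      exact hy
    · have h3 : inv (π x) = inv (π y) := congrArg Subtype.val h
      rw [← hπ, ← hπ] at h3
      have h4 := π.injective h3
      rw [← hinv x, h4, hinv]
  let p : Perm Φ := Equiv.ofBijective p0 (Finite.injective_iff_bijective.1 hp0)
  let σ : Φ → Perm Bool := fun x => if π x.1 ∈ Φ then 1 else Equiv.swap false true
  let Q : Perm (Φ × Bool) := (prodCongrRight σ).trans (prodCongrLeft (fun _ : Bool => p))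
  have hE : ∀ a, E (Q a) = π (E a) := by
    rintro ⟨⟨x, hx⟩, b⟩
    have hQ : Q (⟨x, hx⟩, b) = (p0 ⟨x, hx⟩, σ ⟨x, hx⟩ b) := rfl
    rw [hQ]
    by_cases h : π x ∈ Φ
    · have h1 : p0 ⟨x, hx⟩ = ⟨π x, h⟩ := by simp only [p0, h, dif_pos]
      have h2 : σ ⟨x, hx⟩ = 1 := by simp only [σ, h, if_true]
      rw [h1, h2]
      cases b
      · simp [E]
      · simp [E, hπ]
    · have h1 : p0 ⟨x, hx⟩ = ⟨inv (π x), hmem _ h⟩ := by
        simp only [p0, h, dif_neg, not_false_eq_true]
      have h2 : σ ⟨x, hx⟩ = Equiv.swap false true := by simp only [σ, h, if_false]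
      rw [h1, h2]
      cases b
      · simp [E, hinv]
      · simp [E, hπ]
  have h1 : π = (E.symm.trans Q).trans E := by
    ext y
    change π y = E (Q (E.symm y))
    rw [hE, E.apply_symm_apply]
  have h2 : Perm.sign π = Perm.sign Q := by
    rw [h1, Perm.sign_symm_trans_trans]
  have h3 : Perm.sign Q = ∏ x : Φ, Perm.sign (σ x) := by
    have h4 : Q = prodCongrLeft (fun _ : Bool => p) * prodCongrRight σ := rfl
    rw [h4, map_mul, Perm.sign_prodCongrRight, Perm.sign_prodCongrLeft, Fintype.prod_bool,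
      Int.units_mul_self, one_mul]
  rw [h2, h3]
  have h5 : ∀ x : Φ, Perm.sign (σ x) = if π x.1 ∉ Φ then -1 else 1 := by
    intro x
    by_cases h : π x.1 ∈ Φ
    · simp only [σ, h, if_true, not_true_eq_false, if_false, Perm.sign_one]
    · simp only [σ, h, if_false, not_false_eq_true, if_true]
      exact Perm.sign_swap (by decide)
  rw [Finset.prod_congr rfl (fun x _ => h5 x), Finset.prod_coe_sort Φ
    (fun x => if π x ∉ Φ then (-1 : ℤˣ) else 1), Finset.prod_ite, Finset.prod_const_one, mul_one,
    Finset.prod_const]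
  push_cast
  rfl

end Pool.Agent.H204R3.CM
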